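import Pool.Agent.Q108.SCT.Final

set_option autoImplicit false

/-!
A 3-edge-connected cubic graph `G` with `scc(G) < 4/3 |E(G)| + T(G)`.

The graph has 74 vertices and 111 edges. It is a 3-sum of nine copies of the Petersen graph. It has
a cycle cover of length 150 (with one edge of depth 3), and at least three vertices have to be
expanded into triangles before four perfect matchings can cover the edges, while
`150 < 4/3 * 111 + 3 = 151`.
-/

namespace Pool.Agent.Results.MP_961c17_co.TriangleExpansions

open Q108.SCT

/-- There is a 3-edge-connected cubic graph `G` with `3 scc(G) < 4 |E(G)| + 3 T(G)`. -/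
theorem result : ∃ (V : Type) (_ : Fintype V) (G : SimpleGraph V),
    (∀ v, (G.neighborSet v).ncard = 3) ∧ G.IsEdgeConnected 3 ∧
      (∃ F, IsCycleCover G F ∧ coverLength F = scc G) ∧
      ((3 * scc G : ℕ) : ℕ∞) < ((4 * G.edgeSet.ncard : ℕ) : ℕ∞) + 3 * T G :=
  ⟨Fin 74, inferInstance, Gr, cubic, conn3, scc_attained, main⟩

end Pool.Agent.Results.MP_961c17_co.TriangleExpansions
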